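import Mathlib

/-!
# Counting words with many determined blocks
-/

set_option autoImplicit false

namespace Pool.Agent.Q179.BK

open Finset

/-- A word with disjoint blocks of length at least `K` of total length `m`, each determined by the
part of the word to its right up to the choice in `D`; the other blocks are in the language `L`. -/
inductive Cov (L : Set (List Bool)) (D : ℕ → List Bool → Set (List Bool)) (K : ℕ) :
    List Bool → ℕ → Prop
  | base (w : List Bool) : w ∈ L → Cov L D K w 0
  | step (u v w : List Bool) (m : ℕ) : u ∈ L → K ≤ v.length → v ∈ D v.length w →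
      Cov L D K w m → Cov L D K (u ++ v ++ w) (m + v.length)

/-- words of length `n` -/
def len (n : ℕ) : Set (List Bool) := {w | w.length = n}

theorem len_finite (n : ℕ) : (len n).Finite := List.finite_length_eq Bool n

theorem cov_finite (L : Set (List Bool)) (D : ℕ → List Bool → Set (List Bool)) (K n m : ℕ) :
    {w | w.length = n ∧ Cov L D K w m}.Finite :=
  (len_finite n).subset fun _ h => h.1

theorem ncard_biUnion_le' {α β : Type*} {s : Set α} (hs : s.Finite) (f : α → Set β) (c : ℕ)
    (hf : ∀ a ∈ s, (f a).ncard ≤ c) : (⋃ a ∈ s, f a).ncard ≤ s.ncard * c := by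
  classical
  induction s, hs using Set.Finite.induction_on with
  | empty => simp
  | @insert a s ha hs ih =>
    rw [Set.biUnion_insert, Set.ncard_insert_of_notMem ha hs]
    refine (Set.ncard_union_le _ _).trans ?_
    have := ih fun b hb => hf b (Set.mem_insert_of_mem _ hb)
    have h2 := hf a (Set.mem_insert _ _)
    calc _ ≤ c + s.ncard * c := add_le_add h2 this
      _ = _ := by ring

/-- The number of the words with determined blocks. -/
theorem card_cov (L : Set (List Bool)) (D : ℕ → List Bool → Set (List Bool)) (K : ℕ) (hK : 1 ≤ K)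
    (C' : ℕ) (hD : ∀ r w, (D r w).ncard ≤ C') (hDf : ∀ r w, (D r w).Finite) (C q lam mu : ℝ)
    (hC : 0 ≤ C) (hq : 0 < q) (hlam : 0 < lam) (hmu : 0 < mu) (hql : q < lam) (hmul : mu < lam)
    (hL : ∀ n, ((L ∩ len n).ncard : ℝ) ≤ C * q ^ n)
    (hsmall : C * C' * (mu / lam) ^ K ≤ (1 - q / lam) * (1 - mu / lam)) :
    ∀ n m : ℕ, ({w | w.length = n ∧ Cov L D K w m}.ncard : ℝ) ≤ C * lam ^ n / mu ^ m := by
  intro n
  induction n using Nat.strong_induction_on with
  | _ n ih =>
  intro m
  rcases Nat.eq_zero_or_pos m with hm | hm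
  · subst hm
    have h1 : {w | w.length = n ∧ Cov L D K w 0} ⊆ L ∩ len n := by
      rintro w ⟨hw, hc⟩
      generalize hz : (0 : ℕ) = z at hc
      cases hc with
      | base w hL => exact ⟨hL, hw⟩
      | step u v w m hu hv hvD hc => omega
    calc _ ≤ ((L ∩ len n).ncard : ℝ) := by
          exact_mod_cast Set.ncard_le_ncard h1 ((len_finite n).subset Set.inter_subset_right)
      _ ≤ C * q ^ n := hL n
      _ ≤ C * lam ^ n / mu ^ 0 := by
          simp only [pow_zero, div_one]
          gcongr
  · -- the recursion
    set U : ℕ × ℕ → Set (List Bool) := fun p =>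
      ⋃ u ∈ L ∩ len p.1, ⋃ w ∈ {w | w.length = n - p.1 - p.2 ∧ Cov L D K w (m - p.2)},
        (fun v => u ++ v ++ w) '' (D p.2 w) with hU
    set I : Finset (ℕ × ℕ) := ((range (n + 1)) ×ˢ (Icc K n)).filter
      (fun p => p.1 + p.2 ≤ n ∧ p.2 ≤ m) with hI
    have h1 : {w | w.length = n ∧ Cov L D K w m} ⊆ ⋃ p ∈ (I : Set (ℕ × ℕ)), U p := by
      rintro w ⟨hw, hc⟩
      cases hc with
      | base w hL => omega
      | step u v w m' hu hv hvD hc =>
        simp only [List.length_append] at hw
        refine Set.mem_biUnion (x := (u.length, v.length)) ?_ ?_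
        · simp only [hI, coe_filter, mem_product, mem_range, mem_Icc, Set.mem_ofPred_eq]
          omega
        · simp only [hU]
          refine Set.mem_biUnion (x := u) ⟨hu, rfl⟩ ?_
          refine Set.mem_biUnion (x := w) ⟨?_, ?_⟩ ⟨v, hvD, rfl⟩
          · show w.length = n - u.length - v.length
            omega
          · simpa using hc
    have hUfin : ∀ p, (U p).Finite := by
      intro p
      refine Set.Finite.biUnion ((len_finite p.1).subset Set.inter_subset_right) fun u _ => ?_
      exact Set.Finite.biUnion (cov_finite L D K _ _) fun w _ => (hDf _ _).image _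
    have h2 : {w | w.length = n ∧ Cov L D K w m}.ncard ≤ ∑ p ∈ I, (U p).ncard := by
      refine (Set.ncard_le_ncard h1 ?_).trans ?_
      · exact Set.Finite.biUnion I.finite_toSet fun p _ => hUfin p
      · clear_value U I
        clear h1 hI
        induction I using Finset.induction_on with
        | empty => simp
        | @insert p I hp ih2 =>
          rw [Finset.sum_insert hp, Finset.coe_insert, Set.biUnion_insert]
          exact (Set.ncard_union_le _ _).trans (by gcongr)
    have h3 : ∀ p ∈ I, ((U p).ncard : ℝ) ≤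
        C * lam ^ n / mu ^ m * (C * C' * (q / lam) ^ p.1 * (mu / lam) ^ p.2) := by
      intro p hp
      simp only [hI, mem_filter, mem_product, mem_range, mem_Icc] at hp
      obtain ⟨⟨hp1, hp2, hp3⟩, hp4, hp5⟩ := hp
      have h4 : (U p).ncard ≤ (L ∩ len p.1).ncard *
          ({w | w.length = n - p.1 - p.2 ∧ Cov L D K w (m - p.2)}.ncard * C') := by
        refine ncard_biUnion_le' ((len_finite p.1).subset Set.inter_subset_right) _ _ fun u _ => ?_
        refine ncard_biUnion_le' (cov_finite L D K _ _) _ _ fun w _ => ?_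
        exact (Set.ncard_image_le (hDf _ _)).trans (hD _ _)
      have h5 := ih (n - p.1 - p.2) (by omega) (m - p.2)
      have h6 := hL p.1
      calc ((U p).ncard : ℝ) ≤ (L ∩ len p.1).ncard *
          ({w | w.length = n - p.1 - p.2 ∧ Cov L D K w (m - p.2)}.ncard * C') := by
            exact_mod_cast h4
        _ ≤ (C * q ^ p.1) * ((C * lam ^ (n - p.1 - p.2) / mu ^ (m - p.2)) * C') := by
            gcongr
        _ = C * lam ^ n / mu ^ m * (C * C' * (q / lam) ^ p.1 * (mu / lam) ^ p.2) := by
            have e1 : lam ^ n = lam ^ (n - p.1 - p.2) * lam ^ p.1 * lam ^ p.2 := by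
              rw [← pow_add, ← pow_add]; congr 1; omega
            have e2 : mu ^ m = mu ^ (m - p.2) * mu ^ p.2 := by
              rw [← pow_add]; congr 1; omega
            rw [e1, e2, div_pow, div_pow]
            field_simp
    have hx0 : 0 < q / lam := by positivity
    have hx1 : q / lam < 1 := by rw [div_lt_one hlam]; exact hql
    have hy0 : 0 < mu / lam := by positivity
    have hy1 : mu / lam < 1 := by rw [div_lt_one hlam]; exact hmul
    have h7 : ∑ p ∈ I, C * C' * (q / lam) ^ p.1 * (mu / lam) ^ p.2 ≤ 1 := by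
      have e1 : ∑ p ∈ I, C * C' * (q / lam) ^ p.1 * (mu / lam) ^ p.2 ≤
          ∑ p ∈ (range (n + 1)) ×ˢ (Icc K n), C * C' * (q / lam) ^ p.1 * (mu / lam) ^ p.2 := by
        refine Finset.sum_le_sum_of_subset_of_nonneg (Finset.filter_subset _ _) fun p _ _ => ?_
        positivity
      have e2 : ∑ p ∈ (range (n + 1)) ×ˢ (Icc K n), C * C' * (q / lam) ^ p.1 * (mu / lam) ^ p.2
          = C * C' * (∑ g ∈ range (n + 1), (q / lam) ^ g) * ∑ r ∈ Icc K n, (mu / lam) ^ r := by
        rw [Finset.sum_product, mul_assoc, Finset.sum_mul_sum, Finset.mul_sum]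
        refine Finset.sum_congr rfl fun g _ => ?_
        rw [Finset.mul_sum]
        refine Finset.sum_congr rfl fun r _ => ?_
        ring
      have e3 : ∑ g ∈ range (n + 1), (q / lam) ^ g ≤ 1 / (1 - q / lam) := by
        have := (summable_geometric_of_lt_one hx0.le hx1).sum_le_tsum (range (n + 1))
          (fun i _ => by positivity)
        rwa [tsum_geometric_of_lt_one hx0.le hx1, inv_eq_one_div] at this
      have e4 : ∑ r ∈ Icc K n, (mu / lam) ^ r ≤ (mu / lam) ^ K / (1 - mu / lam) := by
        have h8 : ∑ r ∈ Icc K n, (mu / lam) ^ r ≤ ∑ j ∈ range (n + 1), (mu / lam) ^ K * (mu / lam) ^ j := by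
          rw [Finset.range_eq_Ico]
          have h9 : ∑ j ∈ Ico 0 (n + 1), (mu / lam) ^ K * (mu / lam) ^ j =
              ∑ r ∈ Ico (0 + K) (n + 1 + K), (mu / lam) ^ r := by
            rw [← Finset.sum_Ico_add' (fun r => (mu / lam) ^ r) 0 (n + 1) K]
            refine Finset.sum_congr rfl fun j _ => ?_
            rw [← pow_add, add_comm]
          rw [h9]
          refine Finset.sum_le_sum_of_subset_of_nonneg ?_ fun _ _ _ => by positivity
          intro r hr
          simp only [mem_Icc, mem_Ico] at hr ⊢
          omega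
        refine h8.trans ?_
        rw [← Finset.mul_sum, div_eq_mul_inv]
        have := (summable_geometric_of_lt_one hy0.le hy1).sum_le_tsum (range (n + 1))
          (fun i _ => by positivity)
        rw [tsum_geometric_of_lt_one hy0.le hy1] at this
        exact mul_le_mul_of_nonneg_left this (by positivity)
      calc _ ≤ _ := e1
        _ = _ := e2
        _ ≤ C * C' * (1 / (1 - q / lam)) * ((mu / lam) ^ K / (1 - mu / lam)) := by
            gcongr
        _ = (C * C' * (mu / lam) ^ K) / ((1 - q / lam) * (1 - mu / lam)) := by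
            field_simp
        _ ≤ 1 := by
            rw [div_le_one (mul_pos (by linarith) (by linarith))]
            exact hsmall
    calc ({w | w.length = n ∧ Cov L D K w m}.ncard : ℝ) ≤ ∑ p ∈ I, ((U p).ncard : ℝ) := by
          exact_mod_cast h2
      _ ≤ ∑ p ∈ I, C * lam ^ n / mu ^ m * (C * C' * (q / lam) ^ p.1 * (mu / lam) ^ p.2) :=
          Finset.sum_le_sum h3
      _ = C * lam ^ n / mu ^ m * ∑ p ∈ I, (C * C' * (q / lam) ^ p.1 * (mu / lam) ^ p.2) := by
          rw [Finset.mul_sum]
      _ ≤ C * lam ^ n / mu ^ m * 1 := by gcongr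
      _ = _ := by ring

end Pool.Agent.Q179.BK
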