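import Mathlib
import Pool.Agent.Q179.BK.Count

/-!
# Coding of the baker's map, words, geometry of a convex hole
-/

set_option autoImplicit false

namespace Pool.Agent.Q179.BK

open Finset

/-- two-sided 0-1 sequences -/
abbrev Sq := ℤ → Bool

/-- the digit as a real number -/
def dg (b : Bool) : ℝ := if b then 1 else 0

theorem dg_nonneg (b : Bool) : 0 ≤ dg b := by unfold dg; split_ifs <;> norm_num
theorem dg_le (b : Bool) : dg b ≤ 1 := by unfold dg; split_ifs <;> norm_num

/-- the shift -/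
def sh (t : ℤ) (a : Sq) : Sq := fun i => a (i + t)

/-- time reversal -/
def rev (a : Sq) : Sq := fun i => a (-1 - i)

/-- the number with the binary digits `a 0, a 1, ...` -/
noncomputable def fx (a : Sq) : ℝ := ∑' k : ℕ, dg (a k) * (1 / 2) ^ (k + 1)

/-- the number with the binary digits `a (-1), a (-2), ...` -/
noncomputable def fy (a : Sq) : ℝ := fx (rev a)

/-- the word of length `n` at the place `i` -/
def wd (a : Sq) (i : ℤ) (n : ℕ) : List Bool := (List.range n).map fun k : ℕ => a (i + (k : ℤ))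

theorem sh_sh (s t : ℤ) (a : Sq) : sh s (sh t a) = sh (s + t) a := by
  funext i; simp only [sh]; congr 1; ring

theorem sh_zero (a : Sq) : sh 0 a = a := by funext i; simp [sh]

theorem rev_rev (a : Sq) : rev (rev a) = a := by
  funext i; simp only [rev]; congr 1; ring

theorem sh_rev (n : ℤ) (a : Sq) : sh n (rev a) = rev (sh (-n) a) := by
  funext i; simp only [rev, sh]; congr 1; ring

theorem fy_rev (a : Sq) : fy (rev a) = fx a := by rw [fy, rev_rev]
theorem fx_rev (a : Sq) : fx (rev a) = fy a := rfl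

theorem summ (a : Sq) : Summable fun k : ℕ => dg (a k) * (1 / 2 : ℝ) ^ (k + 1) := by
  have h : Summable fun k : ℕ => (1 / 2 : ℝ) ^ (k + 1) :=
    (summable_nat_add_iff 1).2 (summable_geometric_of_lt_one (by norm_num) (by norm_num))
  refine Summable.of_nonneg_of_le (fun k => ?_) (fun k => ?_) h
  · exact mul_nonneg (dg_nonneg _) (by positivity)
  · exact mul_le_of_le_one_left (by positivity) (dg_le _)

theorem fx_nonneg (a : Sq) : 0 ≤ fx a :=
  tsum_nonneg fun k => mul_nonneg (dg_nonneg _) (by positivity)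

theorem fx_rec (a : Sq) : fx a = (dg (a 0) + fx (sh 1 a)) / 2 := by
  unfold fx
  rw [(summ a).tsum_eq_zero_add, add_div, ← tsum_div_const]
  congr 1
  · simp only [Nat.cast_zero, zero_add, pow_one]
    ring
  · refine tsum_congr fun k => ?_
    have : a ((k + 1 : ℕ) : ℤ) = sh 1 a k := by simp only [sh]; congr 1
    rw [this]
    ring

theorem fx_le (a : Sq) : fx a ≤ 1 := by
  have h : Summable fun k : ℕ => (1 / 2 : ℝ) ^ (k + 1) :=
    (summable_nat_add_iff 1).2 (summable_geometric_of_lt_one (by norm_num) (by norm_num))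
  have h2 : ∑' k : ℕ, (1 / 2 : ℝ) ^ (k + 1) = 1 := by
    have := tsum_geometric_two
    rw [(summable_geometric_two).tsum_eq_zero_add] at this
    norm_num at this ⊢
    linarith
  rw [← h2]
  exact (summ a).tsum_le_tsum (fun k => mul_le_of_le_one_left (by positivity) (dg_le _)) h

theorem fy_nonneg (a : Sq) : 0 ≤ fy a := fx_nonneg _
theorem fy_le (a : Sq) : fy a ≤ 1 := fx_le _

theorem fy_rec (a : Sq) : fy a = (dg (a (-1)) + fy (sh (-1) a)) / 2 := by
  rw [fy, fx_rec, sh_rev]
  rfl

theorem fx_close : ∀ (r : ℕ) (a b : Sq), (∀ k : ℕ, k < r → a k = b k) →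
    |fx a - fx b| ≤ (1 / 2) ^ r := by
  intro r
  induction r with
  | zero =>
    intro a b _
    rw [pow_zero, abs_le]
    constructor <;> linarith [fx_nonneg a, fx_nonneg b, fx_le a, fx_le b]
  | succ r ih =>
    intro a b h
    have h0 : a 0 = b 0 := by simpa using h 0 (by omega)
    have h1 := ih (sh 1 a) (sh 1 b) fun k hk => by
      simp only [sh]
      have := h (k + 1) (by omega)
      push_cast at this
      exact this
    rw [fx_rec a, fx_rec b, h0]
    have e : (dg (b 0) + fx (sh 1 a)) / 2 - (dg (b 0) + fx (sh 1 b)) / 2 =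
        (fx (sh 1 a) - fx (sh 1 b)) / 2 := by ring
    rw [e, abs_div, abs_two, pow_succ]
    linarith

theorem fy_close (r : ℕ) (a b : Sq) (h : ∀ k : ℕ, k < r → a (-1 - k) = b (-1 - k)) :
    |fy a - fy b| ≤ (1 / 2) ^ r := fx_close r _ _ h

theorem fx_lt_one : ∀ (k : ℕ) (a : Sq), a k = false → fx a < 1 := by
  intro k
  induction k with
  | zero =>
    intro a h
    have h' : a 0 = false := by simpa using h
    rw [fx_rec, h']
    have := fx_le (sh 1 a)
    simp only [dg]
    norm_num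
    linarith
  | succ k ih =>
    intro a h
    have := ih (sh 1 a) (by simp only [sh]; push_cast at h; exact h)
    rw [fx_rec]
    have := dg_le (a 0)
    linarith

/-! ### words -/

theorem wd_length (a : Sq) (i : ℤ) (n : ℕ) : (wd a i n).length = n := by simp [wd]

theorem wd_append (a : Sq) (i : ℤ) (m n : ℕ) :
    wd a i (m + n) = wd a i m ++ wd a (i + m) n := by
  unfold wd
  rw [List.range_add, List.map_append, List.map_map]
  congr 1
  refine List.map_congr_left fun k _ => ?_
  simp only [Function.comp]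
  congr 1
  push_cast
  ring

theorem wd_sh (a : Sq) (t i : ℤ) (n : ℕ) : wd (sh t a) i n = wd a (i + t) n := by
  unfold wd
  refine List.map_congr_left fun k _ => ?_
  simp only [sh]
  congr 1
  ring

theorem wd_eq_iff (a b : Sq) (i j : ℤ) (n : ℕ) :
    wd a i n = wd b j n ↔ ∀ k : ℕ, k < n → a (i + k) = b (j + k) := by
  unfold wd
  rw [List.map_inj_left]
  simp

theorem wd_reverse (a : Sq) (n : ℕ) : wd (rev (sh n a)) 0 n = (wd a 0 n).reverse := by
  apply List.ext_getElem
  · simp [wd]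
  · intro k h1 h2
    simp only [wd, List.length_map, List.length_range] at h1
    simp only [wd, List.getElem_map, List.getElem_range, List.getElem_reverse, List.length_map,
      List.length_range, rev, sh]
    congr 1
    omega

theorem wd_cons (a : Sq) (i : ℤ) (n : ℕ) : wd a i (n + 1) = a i :: wd a (i + 1) n := by
  rw [add_comm, wd_append]
  simp [wd]

/-- the number with binary digits in the word, lowest first -/
def val : List Bool → ℕ
  | [] => 0
  | b :: l => (if b then 1 else 0) + 2 * val l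

theorem val_inj : ∀ (v w : List Bool), v.length = w.length → val v = val w → v = w := by
  intro v
  induction v with
  | nil => intro w h _; exact (List.length_eq_zero_iff.1 h.symm).symm
  | cons b v ih =>
    intro w h hv
    cases w with
    | nil => simp at h
    | cons c w =>
      simp only [val] at hv
      simp only [List.length_cons, Nat.add_right_cancel_iff] at h
      cases b <;> cases c <;> simp at hv
      · rw [ih w h hv]
      · omega
      · omega
      · rw [ih w h hv]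

theorem fy_val : ∀ (r : ℕ) (a : Sq), 2 ^ r * fy a = val (wd a (-r) r) + fy (sh (-r) a) := by
  intro r
  induction r with
  | zero => intro a; simp [wd, val, sh_zero]
  | succ r ih =>
    intro a
    have e1 : wd a (-((r + 1 : ℕ) : ℤ)) (r + 1) = a (-((r + 1 : ℕ) : ℤ)) :: wd a (-r) r := by
      rw [wd_cons]
      congr 2
      push_cast
      ring
    have e2 := fy_rec (sh (-r) a)
    rw [sh_sh] at e2
    have e3 : (-1 + -(r : ℤ)) = -((r + 1 : ℕ) : ℤ) := by push_cast; ring
    have e4 : sh (-r) a (-1) = a (-((r + 1 : ℕ) : ℤ)) := by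
      simp only [sh]; congr 1
    rw [e3, e4] at e2
    rw [e1, pow_succ, mul_assoc, mul_comm (2 : ℝ) (fy a), ← mul_assoc, ih a, e2]
    simp only [val, dg]
    push_cast
    split_ifs <;> ring

/-- a set of words of equal length whose values are close has few elements -/
theorem few (r : ℕ) (S : Set (List Bool)) (hr : ∀ v ∈ S, v.length = r) (M : ℕ)
    (h : ∀ v ∈ S, ∀ w ∈ S, (val v : ℤ) - val w ≤ M) : S.ncard ≤ M + 1 := by
  rcases S.eq_empty_or_nonempty with rfl | hne
  · simp
  have hinj : Set.InjOn val S := fun v hv w hw e => val_inj v w ((hr v hv).trans (hr w hw).symm) e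
  rw [← hinj.ncard_image]
  have hne' : (val '' S).Nonempty := hne.image _
  obtain ⟨w0, hw0, hw0'⟩ := Nat.sInf_mem hne'
  have hsub : val '' S ⊆ (Finset.Icc (sInf (val '' S)) (sInf (val '' S) + M) : Set ℕ) := by
    rintro _ ⟨v, hv, rfl⟩
    rw [Finset.coe_Icc, Set.mem_Icc]
    refine ⟨Nat.sInf_le ⟨v, hv, rfl⟩, ?_⟩
    have := h v hv w0 hw0
    rw [hw0'] at this
    omega
  calc (val '' S).ncard ≤ ((Finset.Icc (sInf (val '' S)) (sInf (val '' S) + M) : Finset ℕ) : Set ℕ).ncard :=
        Set.ncard_le_ncard hsub (Finset.finite_toSet _)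
    _ = M + 1 := by rw [Set.ncard_coe_finset, Nat.card_Icc]; omega

/-! ### geometry -/

/-- `H` is on one side of the line through `p` with normal vector `c` -/
def Sep (H : Set (ℝ × ℝ)) (p c : ℝ × ℝ) : Prop :=
  ∀ z ∈ H, c.1 * (z.1 - p.1) + c.2 * (z.2 - p.2) ≤ 0

/-- `p` is near `H` -/
def Nr (H : Set (ℝ × ℝ)) (δ : ℝ) (p : ℝ × ℝ) : Prop := ∃ z ∈ H, |z.1 - p.1| ≤ δ ∧ |z.2 - p.2| ≤ δ

theorem up_close {H : Set (ℝ × ℝ)} {δ : ℝ} {p q : ℝ × ℝ} {c : ℝ} (hc : |c| ≤ 1)
    (hs : Sep H p (c, 1)) (hq : Nr H δ q) : q.2 - p.2 ≤ 2 * δ + |q.1 - p.1| := by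
  obtain ⟨z, hz, h1, h2⟩ := hq
  have h3 := hs z hz
  simp only [one_mul] at h3
  have h4 : |c * (z.1 - p.1)| ≤ |z.1 - p.1| := by
    rw [abs_mul]; exact mul_le_of_le_one_left (abs_nonneg _) hc
  have h5 : |z.1 - p.1| ≤ |z.1 - q.1| + |q.1 - p.1| := abs_sub_le _ _ _
  have h6 := neg_abs_le (c * (z.1 - p.1))
  have h7 := (abs_le.1 h2).1
  linarith

theorem down_close {H : Set (ℝ × ℝ)} {δ : ℝ} {p q : ℝ × ℝ} {c : ℝ} (hc : |c| ≤ 1)
    (hs : Sep H p (c, -1)) (hq : Nr H δ q) : p.2 - q.2 ≤ 2 * δ + |q.1 - p.1| := by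
  obtain ⟨z, hz, h1, h2⟩ := hq
  have h3 := hs z hz
  simp only [neg_mul, one_mul] at h3
  have h4 : |c * (z.1 - p.1)| ≤ |z.1 - p.1| := by
    rw [abs_mul]; exact mul_le_of_le_one_left (abs_nonneg _) hc
  have h5 : |z.1 - p.1| ≤ |z.1 - q.1| + |q.1 - p.1| := abs_sub_le _ _ _
  have h6 := neg_abs_le (c * (z.1 - p.1))
  have h7 := (abs_le.1 h2).2
  linarith

/-- the point with the code `a` -/
noncomputable def pt (a : Sq) : ℝ × ℝ := (fx a, fy a)

/-- The event that the last `r` digits are determined by the next `r` digits. -/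
def PE (H : Set (ℝ × ℝ)) (a : Sq) (r : ℕ) : Prop :=
  (Nr H (2 * (1 / 2) ^ r) (pt a) ∧ ∃ c, |c| ≤ 1 ∧ Sep H (pt a) (c, 1)) ∨
  (Nr H (2 * (1 / 2) ^ r) (pt a) ∧ ∃ c, |c| ≤ 1 ∧ Sep H (pt a) (c, -1)) ∨
  ∀ i : ℤ, -r ≤ i → i < r → a i = a 0

/-- the possible last `r` digits -/
def Dset (H : Set (ℝ × ℝ)) (r : ℕ) (w : List Bool) : Set (List Bool) :=
  {v | v.length = r ∧ ∃ a, PE H a r ∧ wd a (-r) r = v ∧ wd a 0 r = w.take r}

theorem Dset_finite (H : Set (ℝ × ℝ)) (r : ℕ) (w : List Bool) : (Dset H r w).Finite :=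
  (len_finite r).subset fun _ h => h.1

theorem close_of (r : ℕ) (a b : Sq) (w : List Bool) (ha : wd a 0 r = w.take r)
    (hb : wd b 0 r = w.take r) : |fx a - fx b| ≤ (1 / 2) ^ r := by
  refine fx_close r a b fun k hk => ?_
  have := (wd_eq_iff a b 0 0 r).1 (ha.trans hb.symm) k hk
  simpa using this

theorem val_diff (r : ℕ) (a b : Sq) (h : fy a - fy b ≤ 5 * (1 / 2) ^ r) :
    (val (wd a (-r) r) : ℤ) - val (wd b (-r) r) ≤ 6 := by
  have h1 := fy_val r a
  have h2 := fy_val r b
  have h3 := fy_nonneg (sh (-r) a)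
  have h4 := fy_le (sh (-r) b)
  have h5 : (2 : ℝ) ^ r * (fy a - fy b) ≤ 5 := by
    calc (2 : ℝ) ^ r * (fy a - fy b) ≤ 2 ^ r * (5 * (1 / 2) ^ r) := by gcongr
      _ = 5 * (2 * (1 / 2)) ^ r := by rw [mul_pow]; ring
      _ = 5 := by norm_num
  have h6 : ((val (wd a (-r) r) : ℤ) : ℝ) - ((val (wd b (-r) r) : ℤ) : ℝ) ≤ 6 := by
    push_cast
    nlinarith
  exact_mod_cast h6

theorem Dset_card (H : Set (ℝ × ℝ)) (r : ℕ) (w : List Bool) : (Dset H r w).ncard ≤ 16 := by
  set S1 : Set (List Bool) := {v | v.length = r ∧ ∃ a, (Nr H (2 * (1 / 2) ^ r) (pt a) ∧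
    ∃ c, |c| ≤ 1 ∧ Sep H (pt a) (c, 1)) ∧ wd a (-r) r = v ∧ wd a 0 r = w.take r} with hS1
  set S2 : Set (List Bool) := {v | v.length = r ∧ ∃ a, (Nr H (2 * (1 / 2) ^ r) (pt a) ∧
    ∃ c, |c| ≤ 1 ∧ Sep H (pt a) (c, -1)) ∧ wd a (-r) r = v ∧ wd a 0 r = w.take r} with hS2
  have hsub : Dset H r w ⊆ (S1 ∪ S2) ∪ {List.replicate r true, List.replicate r false} := by
    rintro v ⟨hv, a, ha, hav, haw⟩
    rcases ha with ha | ha | ha
    · exact Or.inl (Or.inl ⟨hv, a, ha, hav, haw⟩)
    · exact Or.inl (Or.inr ⟨hv, a, ha, hav, haw⟩)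
    · right
      have : v = List.replicate r (a 0) := by
        rw [List.eq_replicate_iff]
        refine ⟨hv, fun b hb => ?_⟩
        rw [← hav, wd, List.mem_map] at hb
        obtain ⟨k, hk, rfl⟩ := hb
        rw [List.mem_range] at hk
        exact ha _ (by omega) (by omega)
      rw [this]
      cases a 0
      · right; rfl
      · left; rfl
  have hf1 : S1.Finite := (len_finite r).subset fun _ h => h.1
  have hf2 : S2.Finite := (len_finite r).subset fun _ h => h.1
  have h1 : S1.ncard ≤ 6 + 1 := by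
    refine few r S1 (fun v hv => hv.1) 6 ?_
    rintro _ ⟨_, a, ⟨han, _⟩, rfl, haw⟩ _ ⟨_, b, ⟨_, c, hc, hbs⟩, rfl, hbw⟩
    refine val_diff r a b ?_
    have e1 := up_close hc hbs han
    have e2 := close_of r a b w haw hbw
    simp only [pt] at e1
    linarith
  have h2 : S2.ncard ≤ 6 + 1 := by
    refine few r S2 (fun v hv => hv.1) 6 ?_
    rintro _ ⟨_, a, ⟨_, c, hc, has⟩, rfl, haw⟩ _ ⟨_, b, ⟨hbn, _⟩, rfl, hbw⟩
    refine val_diff r a b ?_
    have e1 := down_close hc has hbn
    have e2 := close_of r b a w hbw haw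
    simp only [pt] at e1
    linarith
  calc (Dset H r w).ncard ≤ ((S1 ∪ S2) ∪ {List.replicate r true, List.replicate r false}).ncard :=
        Set.ncard_le_ncard hsub ((hf1.union hf2).union (by simp))
    _ ≤ (S1 ∪ S2).ncard + ({List.replicate r true, List.replicate r false} : Set (List Bool)).ncard :=
        Set.ncard_union_le _ _
    _ ≤ (S1.ncard + S2.ncard) + 2 := by
        gcongr
        · exact Set.ncard_union_le _ _
        · exact Set.ncard_insert_le _ _ |>.trans (by simp)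
    _ ≤ 16 := by omega

end Pool.Agent.Q179.BK
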