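import Mathlib
import Pool.Agent.Q179.BK.Seq

/-!
# Sequences that avoid the hole: most words have few bad places
-/

set_option autoImplicit false

namespace Pool.Agent.Q179.BK

open Finset

/-- the sequences whose orbit avoids `H` -/
def Av (H : Set (ℝ × ℝ)) : Set Sq := {a | ∀ n : ℤ, pt (sh n a) ∉ H}

/-- the words of these sequences -/
def lang (H : Set (ℝ × ℝ)) : Set (List Bool) := {w | ∃ a ∈ Av H, wd a 0 w.length = w}

theorem Av_sh {H : Set (ℝ × ℝ)} {a : Sq} (ha : a ∈ Av H) (t : ℤ) : sh t a ∈ Av H := by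
  intro n
  rw [sh_sh]
  exact ha _

theorem wd_mem_lang {H : Set (ℝ × ℝ)} {a : Sq} (ha : a ∈ Av H) (i : ℤ) (n : ℕ) :
    wd a i n ∈ lang H := by
  refine ⟨sh i a, Av_sh ha i, ?_⟩
  rw [wd_length, wd_sh, zero_add]

/-- number of words of length `n` -/
noncomputable def cc (H : Set (ℝ × ℝ)) (n : ℕ) : ℕ := (lang H ∩ len n).ncard

theorem cov_of_family (H : Set (ℝ × ℝ)) (a : Sq) (ha : a ∈ Av H) (N K : ℕ) :
    ∀ (n : ℕ) (u : Finset (ℕ × ℕ)), u.card = n → ∀ i : ℕ, i ≤ N →
    (∀ b ∈ u, K ≤ b.2 ∧ i + b.2 ≤ b.1 ∧ b.1 + b.2 ≤ N ∧ PE H (sh b.1 a) b.2) →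
    (∀ b ∈ u, ∀ b' ∈ u, b ≠ b' → b.1 + b.2 + b'.2 < b'.1 ∨ b'.1 + b'.2 + b.2 < b.1) →
    Cov (lang H) (Dset H) K (wd a i (N - i)) (∑ b ∈ u, b.2) := by
  intro n
  induction n with
  | zero =>
    intro u hu i _ _ _
    rw [Finset.card_eq_zero] at hu
    subst hu
    rw [Finset.sum_empty]
    exact Cov.base _ (wd_mem_lang ha _ _)
  | succ n ih =>
    intro u hu i hi h1 h2
    have hne : u.Nonempty := Finset.card_pos.1 (by omega)
    obtain ⟨b, hb, hmin⟩ := Finset.exists_min_image u (fun b => b.1) hne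
    obtain ⟨hbK, hbi, hbN, hbP⟩ := h1 b hb
    have hrest : ∀ c ∈ u.erase b, b.1 + b.2 + c.2 < c.1 := by
      intro c hc
      rw [Finset.mem_erase] at hc
      rcases h2 b hb c hc.2 (Ne.symm hc.1) with h | h
      · exact h
      · have := hmin c hc.2
        omega
    have ih' := ih (u.erase b) (by rw [Finset.card_erase_of_mem hb]; omega) b.1 (by omega)
      (fun c hc => by
        obtain ⟨c1, c2, c3, c4⟩ := h1 c (Finset.mem_of_mem_erase hc)
        have := hrest c hc
        exact ⟨c1, by omega, c3, c4⟩)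
      (fun c hc c' hc' hne => h2 c (Finset.mem_of_mem_erase hc) c' (Finset.mem_of_mem_erase hc') hne)
    have e1 : wd a i (N - i) = wd a i (b.1 - b.2 - i) ++ wd a ((b.1 : ℤ) - b.2) b.2 ++
        wd a b.1 (N - b.1) := by
      have e2 : N - i = (b.1 - b.2 - i) + b.2 + (N - b.1) := by omega
      rw [e2, wd_append, wd_append]
      congr 2
      · congr 1
        omega
      · congr 1
        push_cast
        omega
    have e3 : ∑ c ∈ u, c.2 = (∑ c ∈ u.erase b, c.2) + (wd a ((b.1 : ℤ) - b.2) b.2).length := by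
      rw [wd_length, Finset.sum_erase_add _ _ hb]
    rw [e1, e3]
    refine Cov.step _ _ _ _ (wd_mem_lang ha _ _) ?_ ?_ ih'
    · rw [wd_length]; exact hbK
    · rw [wd_length]
      refine ⟨wd_length _ _ _, sh b.1 a, hbP, ?_, ?_⟩
      · rw [wd_sh]
        congr 1
        ring
      · rw [wd_sh, zero_add]
        have : N - b.1 = b.2 + (N - b.1 - b.2) := by omega
        rw [this, wd_append, List.take_append_of_le_length (by rw [wd_length])]
        rw [List.take_of_length_le (by rw [wd_length])]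

theorem cov_le {L : Set (List Bool)} {D : ℕ → List Bool → Set (List Bool)} {K : ℕ} {w : List Bool}
    {m : ℕ} (h : Cov L D K w m) : m ≤ w.length := by
  induction h with
  | base w _ => omega
  | step u v w m _ _ _ _ ih => simp only [List.length_append]; omega

/-- the events in the window -/
def Ev (H : Set (ℝ × ℝ)) (a : Sq) (N K : ℕ) : Set (ℕ × ℕ) :=
  {b | K ≤ b.2 ∧ b.2 ≤ b.1 ∧ b.1 + b.2 ≤ N ∧ PE H (sh b.1 a) b.2}

/-- the bad places -/
def BP (H : Set (ℝ × ℝ)) (a : Sq) (N K : ℕ) : Set ℕ :=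
  {s | s ≤ N ∧ ∃ b ∈ Ev H a N K, |(s : ℝ) - b.1| ≤ b.2}

theorem Ev_finite (H : Set (ℝ × ℝ)) (a : Sq) (N K : ℕ) : (Ev H a N K).Finite := by
  refine ((Finset.range (N + 1)) ×ˢ (Finset.range (N + 1))).finite_toSet.subset ?_
  rintro ⟨t, r⟩ ⟨_, h1, h2, _⟩
  simp only [Finset.coe_product, Set.mem_prod, Finset.coe_range, Set.mem_Iio]
  simp only at h1 h2
  omega

theorem cov_of_bad (H : Set (ℝ × ℝ)) (a : Sq) (ha : a ∈ Av H) (N K : ℕ) (hK : 1 ≤ K) :
    ∃ m : ℕ, (BP H a N K).ncard ≤ 11 * m ∧ Cov (lang H) (Dset H) K (wd a 0 N) m := by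
  obtain ⟨u, huE, hdisj, hcov⟩ := Vitali.exists_disjoint_subfamily_covering_enlargement_closedBall
    (Ev H a N K) (fun b : ℕ × ℕ => (b.1 : ℝ)) (fun b : ℕ × ℕ => (b.2 : ℝ)) (N : ℝ)
    (by
      rintro ⟨t, r⟩ ⟨_, h1, h2, _⟩
      simp only at h1 h2 ⊢
      exact_mod_cast (show r ≤ N by omega)) 5 (by norm_num)
  have hufin : u.Finite := (Ev_finite H a N K).subset huE
  set v : Finset (ℕ × ℕ) := hufin.toFinset with hv
  have hmem : ∀ b, b ∈ v ↔ b ∈ u := fun b => by rw [hv, Set.Finite.mem_toFinset]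
  refine ⟨∑ b ∈ v, b.2, ?_, ?_⟩
  · -- the covering
    have hsub : BP H a N K ⊆ ⋃ b ∈ (v : Set (ℕ × ℕ)),
        ((Finset.Icc (b.1 - 5 * b.2) (b.1 + 5 * b.2) : Finset ℕ) : Set ℕ) := by
      rintro s ⟨hs, b, hb, hsb⟩
      obtain ⟨c, hc, hbc⟩ := hcov b hb
      have h1 : (s : ℝ) ∈ Metric.closedBall (b.1 : ℝ) (b.2 : ℝ) := by
        rw [Metric.mem_closedBall, Real.dist_eq]; exact hsb
      have h2 := hbc h1
      rw [Metric.mem_closedBall, Real.dist_eq, abs_le] at h2
      refine Set.mem_biUnion (x := c) (by rw [Finset.mem_coe, hmem]; exact hc) ?_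
      rw [Finset.mem_coe, Finset.mem_Icc]
      have h3 : (s : ℤ) ≤ c.1 + 5 * c.2 := by
        have : ((s : ℤ) : ℝ) ≤ ((c.1 + 5 * c.2 : ℤ) : ℝ) := by push_cast; linarith
        exact_mod_cast this
      have h4 : (c.1 : ℤ) - 5 * c.2 ≤ s := by
        have : ((c.1 - 5 * c.2 : ℤ) : ℝ) ≤ ((s : ℤ) : ℝ) := by push_cast; linarith
        exact_mod_cast this
      omega
    calc (BP H a N K).ncard ≤ (⋃ b ∈ (v : Set (ℕ × ℕ)),
        ((Finset.Icc (b.1 - 5 * b.2) (b.1 + 5 * b.2) : Finset ℕ) : Set ℕ)).ncard :=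
          Set.ncard_le_ncard hsub
            (Set.Finite.biUnion v.finite_toSet fun b _ => Finset.finite_toSet _)
      _ ≤ ∑ b ∈ v, 11 * b.2 := by
          have hK2 : ∀ b ∈ v, 1 ≤ b.2 := fun b hb =>
            hK.trans (huE ((hmem b).1 hb)).1
          clear_value v
          clear hsub hmem hv
          induction v using Finset.induction_on with
          | empty => simp
          | @insert b v hb ih =>
            rw [Finset.coe_insert, Set.biUnion_insert, Finset.sum_insert hb]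
            refine (Set.ncard_union_le _ _).trans ?_
            gcongr
            · rw [Set.ncard_coe_finset, Nat.card_Icc]
              have := hK2 b (Finset.mem_insert_self _ _)
              omega
            · exact ih fun c hc => hK2 c (Finset.mem_insert_of_mem hc)
      _ = 11 * ∑ b ∈ v, b.2 := by rw [Finset.mul_sum]
  · have := cov_of_family H a ha N K v.card v rfl 0 (Nat.zero_le _)
      (fun b hb => by
        obtain ⟨h1, h2, h3, h4⟩ := huE ((hmem b).1 hb)
        exact ⟨h1, by omega, h3, h4⟩)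
      (fun b hb c hc hbc => by
        have h1 := hdisj ((hmem b).1 hb) ((hmem c).1 hc) hbc
        simp only [Function.onFun] at h1
        rw [disjoint_closedBall_closedBall_iff (by positivity) (by positivity), Real.dist_eq] at h1
        rcases le_total (b.1 : ℝ) c.1 with h2 | h2
        · left
          rw [abs_of_nonpos (by linarith)] at h1
          have : ((b.1 + b.2 + c.2 : ℕ) : ℝ) < (c.1 : ℕ) := by push_cast; linarith
          exact_mod_cast this
        · right
          rw [abs_of_nonneg (by linarith)] at h1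
          have : ((c.1 + c.2 + b.2 : ℕ) : ℝ) < (b.1 : ℕ) := by push_cast; linarith
          exact_mod_cast this)
    simpa using this

/-- Few words have many bad places. -/
theorem few_bad (H : Set (ℝ × ℝ)) (K : ℕ) (hK : 1 ≤ K) (C q lam mu : ℝ)
    (hC : 0 ≤ C) (hq : 0 < q) (hlam : 0 < lam) (hmu : 1 ≤ mu) (hql : q < lam) (hmul : mu < lam)
    (hL : ∀ n, (cc H n : ℝ) ≤ C * q ^ n)
    (hsmall : C * 16 * (mu / lam) ^ K ≤ (1 - q / lam) * (1 - mu / lam)) (N M : ℕ) :
    ({w | ∃ a ∈ Av H, wd a 0 N = w ∧ 11 * M ≤ (BP H a N K).ncard}.ncard : ℝ) ≤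
      (N + 1) * (C * lam ^ N / mu ^ M) := by
  have hsub : {w | ∃ a ∈ Av H, wd a 0 N = w ∧ 11 * M ≤ (BP H a N K).ncard} ⊆
      ⋃ m ∈ ((Finset.Icc M N : Finset ℕ) : Set ℕ), {w | w.length = N ∧ Cov (lang H) (Dset H) K w m} := by
    rintro w ⟨a, ha, rfl, hM⟩
    obtain ⟨m, hm, hcov⟩ := cov_of_bad H a ha N K hK
    refine Set.mem_biUnion (x := m) ?_ ⟨wd_length _ _ _, hcov⟩
    rw [Finset.mem_coe, Finset.mem_Icc]
    have := cov_le hcov
    rw [wd_length] at this
    omega
  have h1 : ∀ m ∈ Finset.Icc M N,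
      ({w | w.length = N ∧ Cov (lang H) (Dset H) K w m}.ncard : ℝ) ≤ C * lam ^ N / mu ^ M := by
    intro m hm
    rw [Finset.mem_Icc] at hm
    refine (card_cov (lang H) (Dset H) K hK 16 (Dset_card H) (Dset_finite H) C q lam mu hC hq hlam
      (by linarith) hql hmul hL (by exact_mod_cast hsmall) N m).trans ?_
    gcongr
    exact hm.1
  have h2 : (⋃ m ∈ ((Finset.Icc M N : Finset ℕ) : Set ℕ),
      {w | w.length = N ∧ Cov (lang H) (Dset H) K w m}).ncard ≤
      ∑ m ∈ Finset.Icc M N, {w | w.length = N ∧ Cov (lang H) (Dset H) K w m}.ncard := by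
    generalize Finset.Icc M N = I
    induction I using Finset.induction_on with
    | empty => simp
    | @insert b v hb ih =>
      rw [Finset.coe_insert, Set.biUnion_insert, Finset.sum_insert hb]
      exact (Set.ncard_union_le _ _).trans (by gcongr)
  have h3 := Set.ncard_le_ncard hsub
    (Set.Finite.biUnion (Finset.finite_toSet _) fun m _ => cov_finite _ _ _ _ _)
  calc ({w | ∃ a ∈ Av H, wd a 0 N = w ∧ 11 * M ≤ (BP H a N K).ncard}.ncard : ℝ)
      ≤ ∑ m ∈ Finset.Icc M N, ({w | w.length = N ∧ Cov (lang H) (Dset H) K w m}.ncard : ℝ) := by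
        exact_mod_cast h3.trans h2
    _ ≤ ∑ m ∈ Finset.Icc M N, C * lam ^ N / mu ^ M := Finset.sum_le_sum h1
    _ = ((Finset.Icc M N).card : ℝ) * (C * lam ^ N / mu ^ M) := by
        rw [Finset.sum_const, nsmul_eq_mul]
    _ ≤ _ := by
        have h4 : ((Finset.Icc M N).card : ℝ) ≤ N + 1 := by
          rw [Nat.card_Icc]
          exact_mod_cast (show N + 1 - M ≤ N + 1 by omega)
        have h5 : 0 ≤ C * lam ^ N / mu ^ M := by positivity
        exact mul_le_mul_of_nonneg_right h4 h5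

end Pool.Agent.Q179.BK
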