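import Mathlib
import Pool.Agent.Q179.BK.Fam

/-!
# Separation, time reversal, growth, selection of a good word
-/

set_option autoImplicit false

namespace Pool.Agent.Q179.BK

open Finset Filter Topology

/-- the closed unit square -/
def sq : Set (ℝ × ℝ) := Set.Icc 0 1 ×ˢ Set.Icc 0 1

theorem interior_sq : interior sq = Set.Ioo 0 1 ×ˢ Set.Ioo 0 1 := by
  rw [sq, interior_prod_eq, interior_Icc]

theorem convex_sq : Convex ℝ sq := (convex_Icc 0 1).prod (convex_Icc 0 1)

/-- separation of a point from a convex relatively open subset of the square -/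
theorem sep4 {H : Set (ℝ × ℝ)} (hc : Convex ℝ H) (ho : ∃ U : Set (ℝ × ℝ), IsOpen U ∧ H = U ∩ sq)
    {p : ℝ × ℝ} (hp : p ∉ H) :
    (∃ c, |c| ≤ 1 ∧ Sep H p (c, 1)) ∨ (∃ c, |c| ≤ 1 ∧ Sep H p (c, -1)) ∨
    (∃ c, |c| ≤ 1 ∧ Sep H p (1, c)) ∨ (∃ c, |c| ≤ 1 ∧ Sep H p (-1, c)) := by
  rcases H.eq_empty_or_nonempty with rfl | ⟨z, hz⟩
  · left
    exact ⟨0, by simp, fun z hz => absurd hz (Set.notMem_empty z)⟩
  have hint : (interior H).Nonempty := by
    obtain ⟨U, hU, rfl⟩ := ho
    have h1 : (interior sq).Nonempty := by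
      rw [interior_sq]
      exact ⟨(1 / 2, 1 / 2), by norm_num [Set.mem_prod]⟩
    have h2 : z ∈ closure (interior sq) := by
      rw [convex_sq.closure_interior_eq_closure_of_nonempty_interior h1]
      exact subset_closure hz.2
    obtain ⟨y, hy1, hy2⟩ := mem_closure_iff.1 h2 U hU hz.1
    refine ⟨y, mem_interior.2 ⟨U ∩ interior sq, ?_, hU.inter isOpen_interior, hy1, hy2⟩⟩
    exact Set.inter_subset_inter_right _ interior_subset
  obtain ⟨f, hf⟩ := geometric_hahn_banach_open_point hc.interior isOpen_interior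
    (fun h => hp (interior_subset h))
  have hle : ∀ z ∈ H, f z ≤ f p := by
    intro z hz
    have h1 : z ∈ closure (interior H) := by
      rw [hc.closure_interior_eq_closure_of_nonempty_interior hint]
      exact subset_closure hz
    have h2 : closure (interior H) ⊆ {z | f z ≤ f p} :=
      closure_minimal (fun z hz => (hf z hz).le) (isClosed_le f.continuous continuous_const)
    exact h2 h1
  set c1 := f (1, 0) with hc1
  set c2 := f (0, 1) with hc2
  have hfe : ∀ z : ℝ × ℝ, f z = c1 * z.1 + c2 * z.2 := by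
    intro z
    have : z = z.1 • ((1 : ℝ), (0 : ℝ)) + z.2 • ((0 : ℝ), (1 : ℝ)) := by
      ext <;> simp
    conv_lhs => rw [this]
    rw [map_add, map_smul, map_smul, smul_eq_mul, smul_eq_mul, hc1, hc2]
    ring
  have hle2 : ∀ z ∈ H, c1 * (z.1 - p.1) + c2 * (z.2 - p.2) ≤ 0 := by
    intro z hz
    have := hle z hz
    rw [hfe, hfe] at this
    linarith
  have hne : ¬ (c1 = 0 ∧ c2 = 0) := by
    rintro ⟨e1, e2⟩
    obtain ⟨y, hy⟩ := hint
    have := hf y hy
    rw [hfe, hfe, e1, e2] at this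
    simp at this
  rcases le_total |c1| |c2| with h | h
  · have hc20 : c2 ≠ 0 := by
      intro e
      rw [e, abs_zero] at h
      exact hne ⟨abs_nonpos_iff.1 h, e⟩
    have hpos : 0 < |c2| := abs_pos.2 hc20
    have key : ∀ z ∈ H, (c1 / |c2|) * (z.1 - p.1) + (c2 / |c2|) * (z.2 - p.2) ≤ 0 := by
      intro z hz
      have e : (c1 / |c2|) * (z.1 - p.1) + (c2 / |c2|) * (z.2 - p.2) =
          (c1 * (z.1 - p.1) + c2 * (z.2 - p.2)) / |c2| := by ring
      rw [e]
      exact div_nonpos_of_nonpos_of_nonneg (hle2 z hz) hpos.le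
    have habs : abs (c1 / |c2|) ≤ 1 := by
      rw [abs_div, abs_abs, div_le_one hpos]; exact h
    rcases lt_or_gt_of_ne hc20 with h0 | h0
    · right; left
      refine ⟨c1 / |c2|, habs, fun z hz => ?_⟩
      have := key z hz
      have e : c2 / |c2| = -1 := by rw [abs_of_neg h0, div_neg, div_self hc20]
      rw [e] at this
      exact this
    · left
      refine ⟨c1 / |c2|, habs, fun z hz => ?_⟩
      have := key z hz
      have e : c2 / |c2| = 1 := by rw [abs_of_pos h0, div_self hc20]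
      rw [e] at this
      exact this
  · have hc10 : c1 ≠ 0 := by
      intro e
      rw [e, abs_zero] at h
      exact hne ⟨e, abs_nonpos_iff.1 h⟩
    have hpos : 0 < |c1| := abs_pos.2 hc10
    have key : ∀ z ∈ H, (c1 / |c1|) * (z.1 - p.1) + (c2 / |c1|) * (z.2 - p.2) ≤ 0 := by
      intro z hz
      have e : (c1 / |c1|) * (z.1 - p.1) + (c2 / |c1|) * (z.2 - p.2) =
          (c1 * (z.1 - p.1) + c2 * (z.2 - p.2)) / |c1| := by ring
      rw [e]
      exact div_nonpos_of_nonpos_of_nonneg (hle2 z hz) hpos.le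
    have habs : abs (c2 / |c1|) ≤ 1 := by
      rw [abs_div, abs_abs, div_le_one hpos]; exact h
    rcases lt_or_gt_of_ne hc10 with h0 | h0
    · right; right; right
      refine ⟨c2 / |c1|, habs, fun z hz => ?_⟩
      have := key z hz
      have e : c1 / |c1| = -1 := by rw [abs_of_neg h0, div_neg, div_self hc10]
      rw [e] at this
      exact this
    · right; right; left
      refine ⟨c2 / |c1|, habs, fun z hz => ?_⟩
      have := key z hz
      have e : c1 / |c1| = 1 := by rw [abs_of_pos h0, div_self hc10]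
      rw [e] at this
      exact this

/-! ### time reversal -/

/-- the hole with the coordinates exchanged -/
def sw (H : Set (ℝ × ℝ)) : Set (ℝ × ℝ) := {z | (z.2, z.1) ∈ H}

theorem pt_rev (a : Sq) : pt (rev a) = ((pt a).2, (pt a).1) := by
  simp only [pt, fy_rev, fx_rev]

theorem sw_sw (H : Set (ℝ × ℝ)) : sw (sw H) = H := rfl

theorem Av_rev {H : Set (ℝ × ℝ)} {a : Sq} (ha : a ∈ Av H) : rev a ∈ Av (sw H) := by
  intro n
  rw [sh_rev, pt_rev]
  exact ha (-n)

theorem PE_sw_right {H : Set (ℝ × ℝ)} {b : Sq} {r : ℕ} (hn : Nr H (2 * (1 / 2) ^ r) (pt b))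
    {c : ℝ} (hc : |c| ≤ 1) (hs : Sep H (pt b) (1, c)) : PE (sw H) (rev b) r := by
  left
  rw [pt_rev]
  refine ⟨?_, c, hc, ?_⟩
  · obtain ⟨z, hz, h1, h2⟩ := hn
    exact ⟨(z.2, z.1), hz, h2, h1⟩
  · intro z hz
    have := hs (z.2, z.1) hz
    simp only at this ⊢
    linarith

theorem PE_sw_left {H : Set (ℝ × ℝ)} {b : Sq} {r : ℕ} (hn : Nr H (2 * (1 / 2) ^ r) (pt b))
    {c : ℝ} (hc : |c| ≤ 1) (hs : Sep H (pt b) (-1, c)) : PE (sw H) (rev b) r := by
  right; left
  rw [pt_rev]
  refine ⟨?_, c, hc, ?_⟩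
  · obtain ⟨z, hz, h1, h2⟩ := hn
    exact ⟨(z.2, z.1), hz, h2, h1⟩
  · intro z hz
    have := hs (z.2, z.1) hz
    simp only at this ⊢
    linarith

theorem rev_window (a : Sq) (N : ℕ) {w : List Bool} (h : wd a 0 N = w) :
    wd (rev (sh N a)) 0 N = w.reverse := by rw [wd_reverse, h]

theorem reverse_mem_lang {H : Set (ℝ × ℝ)} {w : List Bool} (h : w ∈ lang H) :
    w.reverse ∈ lang (sw H) := by
  obtain ⟨a, ha, haw⟩ := h
  refine ⟨rev (sh w.length a), Av_rev (Av_sh ha _), ?_⟩
  rw [List.length_reverse]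
  exact rev_window a w.length haw

theorem cc_sw (H : Set (ℝ × ℝ)) (n : ℕ) : cc (sw H) n ≤ cc H n := by
  unfold cc
  refine Set.ncard_le_ncard_of_injOn List.reverse ?_ ?_
    ((len_finite n).subset Set.inter_subset_right)
  · rintro w ⟨h1, h2⟩
    refine ⟨?_, ?_⟩
    · have := reverse_mem_lang h1
      rwa [sw_sw] at this
    · show w.reverse.length = n
      rw [List.length_reverse]; exact h2
  · intro v _ w _ h
    exact List.reverse_injective h

/-! ### growth -/

theorem cc_pos {H : Set (ℝ × ℝ)} (hne : (Av H).Nonempty) (n : ℕ) : 1 ≤ cc H n := by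
  obtain ⟨a, ha⟩ := hne
  have : (lang H ∩ len n).Nonempty := ⟨wd a 0 n, wd_mem_lang ha 0 n, wd_length a 0 n⟩
  exact (Set.ncard_pos ((len_finite n).subset Set.inter_subset_right)).2 this

theorem cc_add (H : Set (ℝ × ℝ)) (m n : ℕ) : cc H (m + n) ≤ cc H m * cc H n := by
  unfold cc
  rw [← Set.ncard_prod]
  refine Set.ncard_le_ncard_of_injOn (fun w => (w.take m, w.drop m)) ?_ ?_
    (((len_finite m).subset Set.inter_subset_right).prod
      ((len_finite n).subset Set.inter_subset_right))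
  · rintro w ⟨⟨a, ha, haw⟩, h2⟩
    have hl : w.length = m + n := h2
    rw [hl, wd_append, zero_add] at haw
    rw [Set.mem_prod]
    have e1 : w.take m = wd a 0 m := by
      rw [← haw, List.take_append_of_le_length (by rw [wd_length]),
        List.take_of_length_le (by rw [wd_length])]
    have e2 : w.drop m = wd a m n := by
      rw [← haw, List.drop_append_of_le_length (by rw [wd_length]),
        List.drop_of_length_le (by rw [wd_length]), List.nil_append]
    simp only [e1, e2]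
    exact ⟨⟨wd_mem_lang ha _ _, wd_length _ _ _⟩, ⟨wd_mem_lang ha _ _, wd_length _ _ _⟩⟩
  · intro v _ w _ h
    simp only [Prod.mk.injEq] at h
    rw [← List.take_append_drop m v, ← List.take_append_drop m w, h.1, h.2]

theorem growth {H : Set (ℝ × ℝ)} (hne : (Av H).Nonempty) :
    ∃ h : ℝ, 0 ≤ h ∧ (∀ n : ℕ, Real.exp (h * n) ≤ cc H n) ∧
      ∀ ε : ℝ, 0 < ε → ∃ C : ℝ, 0 ≤ C ∧ ∀ n : ℕ, (cc H n : ℝ) ≤ C * Real.exp ((h + ε) * n) := by
  have hpos : ∀ n, (0 : ℝ) < cc H n := fun n => by exact_mod_cast cc_pos hne n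
  have hone : ∀ n, (1 : ℝ) ≤ cc H n := fun n => by exact_mod_cast cc_pos hne n
  set u : ℕ → ℝ := fun n => Real.log (cc H n) with hu
  have hu0 : ∀ n, 0 ≤ u n := fun n => Real.log_nonneg (hone n)
  have hsub : Subadditive u := by
    intro m n
    simp only [hu]
    rw [← Real.log_mul (hpos m).ne' (hpos n).ne']
    exact Real.log_le_log (hpos _) (by exact_mod_cast cc_add H m n)
  have hbdd : BddBelow (Set.range fun n : ℕ => u n / n) := by
    refine ⟨0, ?_⟩
    rintro _ ⟨n, rfl⟩
    exact div_nonneg (hu0 n) (Nat.cast_nonneg n)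
  refine ⟨hsub.lim, ?_, ?_, ?_⟩
  · exact ge_of_tendsto' (hsub.tendsto_lim hbdd) fun n => div_nonneg (hu0 n) (Nat.cast_nonneg n)
  · intro n
    rcases Nat.eq_zero_or_pos n with rfl | hn
    · simpa using hone 0
    · have h1 := hsub.lim_le_div hbdd hn.ne'
      have hn' : (0 : ℝ) < n := by exact_mod_cast hn
      rw [le_div_iff₀ hn'] at h1
      calc Real.exp (hsub.lim * n) ≤ Real.exp (u n) := Real.exp_le_exp.2 h1
        _ = cc H n := Real.exp_log (hpos n)
  · intro ε hε
    have h1 : ∀ᶠ n : ℕ in atTop, u n / n < hsub.lim + ε :=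
      (hsub.tendsto_lim hbdd).eventually (gt_mem_nhds (by linarith))
    obtain ⟨N0, hN0⟩ := eventually_atTop.1 h1
    have hlim : 0 ≤ hsub.lim :=
      ge_of_tendsto' (hsub.tendsto_lim hbdd) fun n => div_nonneg (hu0 n) (Nat.cast_nonneg n)
    refine ⟨1 + ∑ n ∈ range (N0 + 1), (cc H n : ℝ), by positivity, fun n => ?_⟩
    have hexp : 1 ≤ Real.exp ((hsub.lim + ε) * n) := Real.one_le_exp (by positivity)
    rcases lt_or_ge n (N0 + 1) with hn | hn
    · have h2 : (cc H n : ℝ) ≤ ∑ n ∈ range (N0 + 1), (cc H n : ℝ) :=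
        Finset.single_le_sum (f := fun n => (cc H n : ℝ)) (fun i _ => (hpos i).le)
          (Finset.mem_range.2 hn)
      have h3 : 0 ≤ ∑ n ∈ range (N0 + 1), (cc H n : ℝ) := by positivity
      nlinarith
    · have h2 := hN0 n (by omega)
      have hn' : (0 : ℝ) < n := by
        have : 0 < n := by omega
        exact_mod_cast this
      rw [div_lt_iff₀ hn'] at h2
      have h3 : (cc H n : ℝ) ≤ Real.exp ((hsub.lim + ε) * n) := by
        calc (cc H n : ℝ) = Real.exp (u n) := (Real.exp_log (hpos n)).symm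
          _ ≤ _ := Real.exp_le_exp.2 h2.le
      have h4 : 0 ≤ ∑ n ∈ range (N0 + 1), (cc H n : ℝ) := by positivity
      nlinarith

/-! ### selection -/

theorem select {H : Set (ℝ × ℝ)} (h : ℝ) (hh : 0 < h)
    (hlow : ∀ n : ℕ, Real.exp (h * n) ≤ cc H n)
    (hup : ∀ ε : ℝ, 0 < ε → ∃ C : ℝ, 0 ≤ C ∧ ∀ n : ℕ, (cc H n : ℝ) ≤ C * Real.exp ((h + ε) * n)) :
    ∃ K : ℕ, 1 ≤ K ∧ ∀ᶠ N : ℕ in atTop, ∃ a ∈ Av H, 8 * (BP H a N K).ncard ≤ N ∧
      8 * (BP (sw H) (rev (sh N a)) N K).ncard ≤ N := by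
  set ε : ℝ := h / 352 with hε
  have hε0 : 0 < ε := by positivity
  obtain ⟨C, hC, hCn⟩ := hup ε hε0
  set q := Real.exp (h + ε) with hq
  set lam := Real.exp (h + 2 * ε) with hlam
  set mu := Real.exp h with hmu
  have hlam0 : 0 < lam := Real.exp_pos _
  have hq0 : 0 < q := Real.exp_pos _
  have hmu0 : 0 < mu := Real.exp_pos _
  have hmu1 : 1 ≤ mu := Real.one_le_exp hh.le
  have hql : q < lam := Real.exp_lt_exp.2 (by linarith)
  have hml : mu < lam := Real.exp_lt_exp.2 (by linarith)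
  have hL : ∀ n, (cc H n : ℝ) ≤ C * q ^ n := by
    intro n
    rw [hq, ← Real.exp_nat_mul, mul_comm (n : ℝ)]
    exact hCn n
  have hL' : ∀ n, (cc (sw H) n : ℝ) ≤ C * q ^ n := fun n =>
    le_trans (by exact_mod_cast cc_sw H n) (hL n)
  have hx1 : q / lam < 1 := by rw [div_lt_one hlam0]; exact hql
  have hy1 : mu / lam < 1 := by rw [div_lt_one hlam0]; exact hml
  obtain ⟨K, hK1, hK⟩ : ∃ K : ℕ, 1 ≤ K ∧ C * 16 * (mu / lam) ^ K ≤ (1 - q / lam) * (1 - mu / lam) := by
    have h1 : Tendsto (fun K : ℕ => C * 16 * (mu / lam) ^ K) atTop (𝓝 (C * 16 * 0)) :=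
      (tendsto_pow_atTop_nhds_zero_of_lt_one (by positivity) hy1).const_mul _
    rw [mul_zero] at h1
    have h2 : (0 : ℝ) < (1 - q / lam) * (1 - mu / lam) := mul_pos (by linarith) (by linarith)
    obtain ⟨K, hK⟩ := ((h1.eventually (gt_mem_nhds h2)).and (eventually_ge_atTop 1)).exists
    exact ⟨K, hK.2, hK.1.le⟩
  refine ⟨K, hK1, ?_⟩
  have hev : ∀ᶠ N : ℕ in atTop, 2 * (((N : ℝ) + 1) * (C * mu)) < Real.exp (h / 176 * N) := by
    have h1 : Tendsto (fun N : ℕ => Real.exp (h / 176 * N) / ((N : ℝ) + 1)) atTop atTop := by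
      have h2 : Tendsto (fun x : ℝ => Real.exp (h / 176 * x) / x) atTop atTop := by
        have h3 := (Real.tendsto_exp_div_pow_atTop 1)
        have h4 : Tendsto (fun x : ℝ => h / 176 * x) atTop atTop :=
          tendsto_id.const_mul_atTop (by positivity)
        have h5 := (h3.comp h4).const_mul_atTop (show 0 < h / 176 by positivity)
        refine h5.congr' ?_
        filter_upwards [eventually_gt_atTop 0] with x hx
        simp only [Function.comp, pow_one]
        field_simp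
      have h6 : Tendsto (fun N : ℕ => (N : ℝ) + 1) atTop atTop :=
        tendsto_natCast_atTop_atTop.atTop_add tendsto_const_nhds
      have h7 := (h2.comp h6).const_mul_atTop (Real.exp_pos (-(h / 176)))
      refine h7.congr fun N => ?_
      simp only [Function.comp]
      rw [← mul_div_assoc, ← Real.exp_add]
      congr 2
      ring
    filter_upwards [h1.eventually_gt_atTop (2 * (C * mu))] with N hN
    have hN1 : (0 : ℝ) < (N : ℝ) + 1 := by positivity
    rw [lt_div_iff₀ hN1] at hN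
    linarith
  filter_upwards [hev] with N hN
  set M := N / 88 with hM
  have hM1 : 8 * (11 * M) ≤ N := by omega
  set W1 : Set (List Bool) := {w | ∃ a ∈ Av H, wd a 0 N = w ∧ 11 * M ≤ (BP H a N K).ncard} with hW1
  set W2 : Set (List Bool) := {w | ∃ a ∈ Av H, wd a 0 N = w ∧
    11 * M ≤ (BP (sw H) (rev (sh N a)) N K).ncard} with hW2
  set B : ℝ := ((N : ℝ) + 1) * (C * lam ^ N / mu ^ M) with hB
  have hW1f : W1.Finite := (len_finite N).subset (by
    rintro w ⟨a, _, rfl, _⟩; exact wd_length _ _ _)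
  have hW2f : W2.Finite := (len_finite N).subset (by
    rintro w ⟨a, _, rfl, _⟩; exact wd_length _ _ _)
  have h1 : (W1.ncard : ℝ) ≤ B :=
    few_bad H K hK1 C q lam mu hC hq0 hlam0 hmu1 hql hml hL hK N M
  have h2 : (W2.ncard : ℝ) ≤ B := by
    refine le_trans ?_ (few_bad (sw H) K hK1 C q lam mu hC hq0 hlam0 hmu1 hql hml hL' hK N M)
    have : W2.ncard ≤ {w | ∃ a ∈ Av (sw H), wd a 0 N = w ∧
        11 * M ≤ (BP (sw H) a N K).ncard}.ncard := by
      refine Set.ncard_le_ncard_of_injOn List.reverse ?_ ?_ ((len_finite N).subset (by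
        rintro w ⟨a, _, rfl, _⟩; exact wd_length _ _ _))
      · rintro w ⟨a, ha, haw, hb⟩
        exact ⟨rev (sh N a), Av_rev (Av_sh ha _), rev_window a N haw, hb⟩
      · intro v _ w _ h
        exact List.reverse_injective h
    exact_mod_cast this
  have h3 : B + B < cc H N := by
    refine lt_of_lt_of_le ?_ (hlow N)
    have e1 : lam ^ N / mu ^ M ≤ mu * Real.exp (h * N - h / 176 * N) := by
      rw [hlam, hmu, ← Real.exp_nat_mul, ← Real.exp_nat_mul, ← Real.exp_sub, ← Real.exp_add]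
      apply Real.exp_le_exp.2
      have e2 : (N : ℝ) < 88 * ((M : ℝ) + 1) := by
        have : N < 88 * (M + 1) := by omega
        exact_mod_cast this
      rw [hε]
      nlinarith
    have e3 : Real.exp (h * N) = Real.exp (h / 176 * N) * Real.exp (h * N - h / 176 * N) := by
      rw [← Real.exp_add]; congr 1; ring
    have e4 : 0 < Real.exp (h * N - h / 176 * N) := Real.exp_pos _
    calc B + B = 2 * (((N : ℝ) + 1) * (C * (lam ^ N / mu ^ M))) := by rw [hB]; ring
      _ ≤ 2 * (((N : ℝ) + 1) * (C * (mu * Real.exp (h * N - h / 176 * N)))) := by gcongr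
      _ = 2 * (((N : ℝ) + 1) * (C * mu)) * Real.exp (h * N - h / 176 * N) := by ring
      _ < Real.exp (h / 176 * N) * Real.exp (h * N - h / 176 * N) := by
          exact mul_lt_mul_of_pos_right hN e4
      _ = _ := e3.symm
  have h4 : (W1 ∪ W2).ncard < cc H N := by
    have h5 : ((W1 ∪ W2).ncard : ℝ) ≤ W1.ncard + W2.ncard := by
      exact_mod_cast Set.ncard_union_le W1 W2
    have : ((W1 ∪ W2).ncard : ℝ) < cc H N := by linarith
    exact_mod_cast this
  obtain ⟨w, hw, hwn⟩ := Set.exists_mem_notMem_of_ncard_lt_ncard h4 (hW1f.union hW2f)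
  obtain ⟨⟨a, ha, haw⟩, hlen⟩ := hw
  have hlen' : w.length = N := hlen
  rw [hlen'] at haw
  have hn1 : w ∉ W1 := fun h => hwn (Or.inl h)
  have hn2 : w ∉ W2 := fun h => hwn (Or.inr h)
  refine ⟨a, ha, ?_, ?_⟩
  · by_contra hcon
    exact hn1 ⟨a, ha, haw, by omega⟩
  · by_contra hcon
    exact hn2 ⟨a, ha, haw, by omega⟩

end Pool.Agent.Q179.BK
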