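import Mathlib
import Pool.Agent.Q179.BK.Sel

/-!
# Zero entropy gives Hausdorff dimension zero
-/

set_option autoImplicit false

namespace Pool.Agent.Q179.BK

open Finset Filter Topology MeasureTheory
open scoped ENNReal NNReal

theorem dim_zero (H : Set (ℝ × ℝ))
    (hup : ∀ ε : ℝ, 0 < ε → ∃ C : ℝ, 0 ≤ C ∧ ∀ n : ℕ, (cc H n : ℝ) ≤ C * Real.exp (ε * n)) :
    dimH (pt '' Av H) = 0 := by
  classical
  have key : ∀ d : ℝ≥0, 0 < d → dimH (pt '' Av H) ≤ d := by
    intro d hd
    have hd' : (0 : ℝ) < d := hd
    set ε : ℝ := d * Real.log 2 / 4 with hε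
    have hlog : 0 < Real.log 2 := Real.log_pos (by norm_num)
    have hε0 : 0 < ε := by positivity
    obtain ⟨C, hC, hCn⟩ := hup ε hε0
    apply dimH_le_of_hausdorffMeasure_ne_top
    have hfin : ∀ n, (lang H ∩ len n).Finite := fun n =>
      (len_finite n).subset Set.inter_subset_right
    set ι : ℕ → Type := fun n => {w // w ∈ (hfin (2 * n)).toFinset} with hι
    have hle := Measure.hausdorffMeasure_le_liminf_sum (ι := ι) (d : ℝ) (pt '' Av H) (l := atTop)
      (fun n : ℕ => ENNReal.ofReal ((1 / 2) ^ n)) ?_
      (fun n w => {p | ∃ a ∈ Av H, wd a (-n) (2 * n) = w.1 ∧ pt a = p}) ?_ ?_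
    · have hsum : Tendsto (fun n : ℕ => ∑ w : ι n,
          Metric.ediam {p | ∃ a ∈ Av H, wd a (-n) (2 * n) = w.1 ∧ pt a = p} ^ (d : ℝ)) atTop (𝓝 0) := by
        have hb : ∀ n : ℕ, ∑ w : ι n,
            Metric.ediam {p | ∃ a ∈ Av H, wd a (-n) (2 * n) = w.1 ∧ pt a = p} ^ (d : ℝ) ≤
            ENNReal.ofReal (C * (Real.exp (-(d * Real.log 2 / 2))) ^ n) := by
          intro n
          have h1 : ∀ w : ι n, Metric.ediam {p | ∃ a ∈ Av H, wd a (-n) (2 * n) = w.1 ∧ pt a = p} ^ (d : ℝ)
              ≤ ENNReal.ofReal (((1 / 2) ^ n) ^ (d : ℝ)) := by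
            intro w
            rw [← ENNReal.ofReal_rpow_of_nonneg (by positivity) hd'.le]
            gcongr
            refine Metric.ediam_le ?_
            rintro _ ⟨a, ha, haw, rfl⟩ _ ⟨b, hb, hbw, rfl⟩
            rw [edist_dist]
            apply ENNReal.ofReal_le_ofReal
            have hab := (wd_eq_iff a b (-n) (-n) (2 * n)).1 (haw.trans hbw.symm)
            rw [Prod.dist_eq, Real.dist_eq, Real.dist_eq]
            refine max_le ?_ ?_
            · refine fx_close n a b fun k hk => ?_
              have := hab (n + k) (by omega)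
              have e : -(n : ℤ) + ((n + k : ℕ) : ℤ) = k := by push_cast; ring
              rwa [e] at this
            · refine fy_close n a b fun k hk => ?_
              have := hab (n - 1 - k) (by omega)
              have e : -(n : ℤ) + ((n - 1 - k : ℕ) : ℤ) = -1 - k := by omega
              rwa [e] at this
          calc _ ≤ ∑ w : ι n, ENNReal.ofReal (((1 / 2) ^ n) ^ (d : ℝ)) :=
                Finset.sum_le_sum fun w _ => h1 w
            _ = ENNReal.ofReal ((cc H (2 * n) : ℝ) * ((1 / 2) ^ n) ^ (d : ℝ)) := by
                rw [Finset.sum_const, nsmul_eq_mul, Finset.card_univ, Fintype.card_coe,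
                  ← Set.ncard_eq_toFinset_card _ (hfin (2 * n)), ENNReal.ofReal_mul (by positivity),
                  ENNReal.ofReal_natCast]
                rfl
            _ ≤ _ := by
                apply ENNReal.ofReal_le_ofReal
                have h2 := hCn (2 * n)
                have h3 : ((1 / 2 : ℝ) ^ n) ^ (d : ℝ) = Real.exp (-(d * Real.log 2) * n) := by
                  rw [← Real.rpow_natCast, ← Real.rpow_mul (by norm_num),
                    Real.rpow_def_of_pos (by norm_num)]
                  congr 1
                  rw [one_div, Real.log_inv]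
                  ring
                rw [h3]
                calc (cc H (2 * n) : ℝ) * Real.exp (-(d * Real.log 2) * n)
                    ≤ (C * Real.exp (ε * (2 * n : ℕ))) * Real.exp (-(d * Real.log 2) * n) := by
                      gcongr
                  _ = C * (Real.exp (-(d * Real.log 2 / 2))) ^ n := by
                      rw [mul_assoc, ← Real.exp_add, ← Real.exp_nat_mul]
                      congr 2
                      rw [hε]
                      push_cast
                      ring
        have h2 : Tendsto (fun n : ℕ => ENNReal.ofReal (C * (Real.exp (-(d * Real.log 2 / 2))) ^ n))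
            atTop (𝓝 0) := by
          rw [← ENNReal.ofReal_zero]
          refine ENNReal.tendsto_ofReal ?_
          have h3 := (tendsto_pow_atTop_nhds_zero_of_lt_one (Real.exp_pos (-(d * Real.log 2 / 2))).le
            (by rw [Real.exp_lt_one_iff]; have : 0 < (d : ℝ) * Real.log 2 / 2 := by positivity
                linarith)).const_mul C
          rwa [mul_zero] at h3
        exact tendsto_of_tendsto_of_tendsto_of_le_of_le tendsto_const_nhds h2
          (fun _ => zero_le) hb
      rw [hsum.liminf_eq] at hle
      exact ne_top_of_le_ne_top ENNReal.zero_ne_top hle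
    · rw [← ENNReal.ofReal_zero]
      refine ENNReal.tendsto_ofReal ?_
      exact tendsto_pow_atTop_nhds_zero_of_lt_one (by norm_num) (by norm_num)
    · filter_upwards with n w
      refine Metric.ediam_le ?_
      rintro _ ⟨a, ha, haw, rfl⟩ _ ⟨b, hb, hbw, rfl⟩
      rw [edist_dist]
      apply ENNReal.ofReal_le_ofReal
      have hab := (wd_eq_iff a b (-n) (-n) (2 * n)).1 (haw.trans hbw.symm)
      rw [Prod.dist_eq, Real.dist_eq, Real.dist_eq]
      refine max_le ?_ ?_
      · refine fx_close n a b fun k hk => ?_
        have := hab (n + k) (by omega)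
        have e : -(n : ℤ) + ((n + k : ℕ) : ℤ) = k := by push_cast; ring
        rwa [e] at this
      · refine fy_close n a b fun k hk => ?_
        have := hab (n - 1 - k) (by omega)
        have e : -(n : ℤ) + ((n - 1 - k : ℕ) : ℤ) = -1 - k := by omega
        rwa [e] at this
    · filter_upwards with n
      rintro _ ⟨a, ha, rfl⟩
      rw [Set.mem_iUnion]
      refine ⟨⟨wd a (-n) (2 * n), ?_⟩, a, ha, rfl, rfl⟩
      rw [Set.Finite.mem_toFinset]
      exact ⟨wd_mem_lang ha _ _, wd_length _ _ _⟩
  refine le_antisymm ?_ zero_le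
  refine le_of_forall_gt_imp_ge_of_dense fun x hx => ?_
  rcases eq_or_ne x ∞ with rfl | hxt
  · exact le_top
  · lift x to ℝ≥0 using hxt
    exact key x (by exact_mod_cast hx)

end Pool.Agent.Q179.BK
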