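import Mathlib
import Pool.Agent.Q179.BK.Sel

/-!
# Positive entropy gives a periodic sequence that avoids the closure of the hole
-/

set_option autoImplicit false

namespace Pool.Agent.Q179.BK

open Finset Filter Topology

theorem exists_periodic {H : Set (ℝ × ℝ)} (hc : Convex ℝ H)
    (ho : ∃ U : Set (ℝ × ℝ), IsOpen U ∧ H = U ∩ sq) (h : ℝ) (hh : 0 < h)
    (hlow : ∀ n : ℕ, Real.exp (h * n) ≤ cc H n)
    (hup : ∀ ε : ℝ, 0 < ε → ∃ C : ℝ, 0 ≤ C ∧ ∀ n : ℕ, (cc H n : ℝ) ≤ C * Real.exp ((h + ε) * n)) :
    ∃ (b : Sq) (q : ℕ), 1 ≤ q ∧ (∀ i, b (i + q) = b i) ∧ (∃ i j, b i ≠ b j) ∧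
      ∀ t : ℤ, pt (sh t b) ∉ closure H := by
  classical
  obtain ⟨K, hK1, hev⟩ := select h hh hlow hup
  obtain ⟨N, ⟨a, ha, hb1, hb2⟩, hN⟩ := (hev.and (eventually_ge_atTop (8 * K + 4 * 2 ^ (2 * K)))).exists
  set a' := rev (sh N a) with ha'
  have hfin : ∀ (H' : Set (ℝ × ℝ)) (c : Sq), (BP H' c N K).Finite := fun H' c =>
    (Finset.range (N + 1)).finite_toSet.subset fun s hs => by
      rw [Finset.mem_coe, Finset.mem_range]; have := hs.1; omega
  -- the good places
  set T : Finset ℕ := Icc K (N - K) with hT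
  set G : Finset ℕ := T.filter (fun s => s ∉ BP H a N K ∧ (N - s) ∉ BP (sw H) a' N K) with hG
  have hGcard : 2 ^ (2 * K) < G.card := by
    have h1 : (T.filter (fun s => s ∈ BP H a N K)).card ≤ (BP H a N K).ncard := by
      rw [← Set.ncard_coe_finset]
      exact Set.ncard_le_ncard (fun s hs => (by simpa using hs : s ∈ T ∧ s ∈ BP H a N K).2) (hfin _ _)
    have h2 : (T.filter (fun s => (N - s) ∈ BP (sw H) a' N K)).card ≤ (BP (sw H) a' N K).ncard := by
      rw [← Set.ncard_coe_finset]
      refine Set.ncard_le_ncard_of_injOn (fun s => N - s) ?_ ?_ (hfin _ _)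
      · intro s hs
        exact (by simpa using hs : s ∈ T ∧ N - s ∈ BP (sw H) a' N K).2
      · intro s hs s' hs' e
        have e1 : s ∈ T := (by simpa using hs : s ∈ T ∧ N - s ∈ BP (sw H) a' N K).1
        have e2 : s' ∈ T := (by simpa using hs' : s' ∈ T ∧ N - s' ∈ BP (sw H) a' N K).1
        rw [hT, mem_Icc] at e1 e2
        simp only at e
        omega
    have h3 : T ⊆ G ∪ (T.filter (fun s => s ∈ BP H a N K) ∪
        T.filter (fun s => (N - s) ∈ BP (sw H) a' N K)) := by
      intro s hs
      simp only [hG, mem_union, mem_filter]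
      tauto
    have h4 := (card_le_card h3).trans (card_union_le _ _)
    have h5 := card_union_le (T.filter (fun s => s ∈ BP H a N K))
      (T.filter (fun s => (N - s) ∈ BP (sw H) a' N K))
    have h6 : T.card = N - K + 1 - K := by rw [hT, Nat.card_Icc]
    have h7 : 0 < 2 ^ (2 * K) := by positivity
    omega
  -- two good places with the same surroundings
  obtain ⟨s, hs, e, he, hse, hf⟩ : ∃ s ∈ G, ∃ e ∈ G, s < e ∧
      ∀ j : ℤ, (s : ℤ) - K ≤ j → j < s + K → a (j + ((e : ℤ) - s)) = a j := by
    set f : ℕ → (Fin (2 * K) → Bool) := fun s j => a ((s : ℤ) - K + (j : ℕ)) with hfdef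
    have key : ∀ s e : ℕ, f s = f e → ∀ j : ℤ, (s : ℤ) - K ≤ j → j < s + K →
        a (j + ((e : ℤ) - s)) = a j := by
      intro s e hfe j hj1 hj2
      have h1 := congrFun hfe ⟨(j - (s - K)).toNat, by omega⟩
      simp only [hfdef] at h1
      have h2 : ((s : ℤ) - K + ((j - (s - K)).toNat : ℕ)) = j := by omega
      have h3 : ((e : ℤ) - K + ((j - (s - K)).toNat : ℕ)) = j + ((e : ℤ) - s) := by omega
      rw [h2, h3] at h1
      exact h1.symm
    obtain ⟨x, hx, y, hy, hxy, hfxy⟩ := Finset.exists_ne_map_eq_of_card_lt_of_maps_to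
      (s := G) (t := (Finset.univ : Finset (Fin (2 * K) → Bool))) (f := f)
      (by rw [Finset.card_univ, Fintype.card_fun, Fintype.card_bool, Fintype.card_fin]; exact hGcard)
      (fun _ _ => Finset.mem_univ _)
    rcases lt_or_gt_of_ne hxy with hlt | hlt
    · exact ⟨x, hx, y, hy, hlt, key x y hfxy⟩
    · exact ⟨y, hy, x, hx, hlt, key y x hfxy.symm⟩
  simp only [hG, mem_filter, hT, mem_Icc] at hs he
  obtain ⟨⟨hsK, hsN⟩, hs1, hs2⟩ := hs
  obtain ⟨⟨heK, heN⟩, he1, he2⟩ := he
  set q : ℕ := e - s with hq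
  have hqe : (q : ℤ) = (e : ℤ) - s := by omega
  have hq0 : (0 : ℤ) < q := by omega
  rw [← hqe] at hf
  set b : Sq := fun i => a (s + (i - s) % q) with hb
  -- `a` and `b` agree
  have hupn : ∀ n : ℕ, ∀ j : ℤ, (s : ℤ) ≤ j → j < e → j + n * q < e + K → a (j + n * q) = a j := by
    intro n
    induction n with
    | zero => intro j _ _ _; simp
    | succ n ih =>
      intro j h1 h2 h3
      have e1 : j + ((n + 1 : ℕ) : ℤ) * q = (j + n * q) + q := by push_cast; ring
      have h4 : 0 ≤ (n : ℤ) * q := by positivity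
      rw [e1] at h3 ⊢
      rw [hf _ (by omega) (by omega)]
      exact ih j h1 h2 (by omega)
  have hdown : ∀ n : ℕ, ∀ j : ℤ, (s : ℤ) ≤ j → j < e → (s : ℤ) - K ≤ j - n * q →
      a (j - n * q) = a j := by
    intro n
    induction n with
    | zero => intro j _ _ _; simp
    | succ n ih =>
      intro j h1 h2 h3
      have e1 : j - n * q = (j - ((n + 1 : ℕ) : ℤ) * q) + q := by push_cast; ring
      have h4 : 0 ≤ (n : ℤ) * q := by positivity
      have h5 : j - ((n + 1 : ℕ) : ℤ) * q < s + K := by
        have : j - ((n + 1 : ℕ) : ℤ) * q = j - n * q - q := by push_cast; ring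
        omega
      rw [← hf _ h3 h5, ← e1]
      exact ih j h1 h2 (by rw [e1]; omega)
  have hagree : ∀ j : ℤ, (s : ℤ) - K ≤ j → j < e + K → b j = a j := by
    intro j h1 h2
    have hd := Int.emod_add_mul_ediv (j - s) q
    have hm0 := Int.emod_nonneg (j - s) hq0.ne'
    have hm1 := Int.emod_lt_of_pos (j - s) hq0
    set r := (j - s) % q with hr
    set m := (j - s) / q with hm
    show a (s + r) = a j
    rcases le_total 0 m with h3 | h3
    · obtain ⟨n, hn⟩ := Int.eq_ofNat_of_zero_le h3
      have e1 : j = (s + r) + n * q := by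
        rw [hn] at hd
        linarith
      rw [e1]
      exact (hupn n (s + r) (by omega) (by omega) (by rw [← e1]; exact h2)).symm
    · obtain ⟨n, hn⟩ := Int.eq_ofNat_of_zero_le (neg_nonneg.2 h3)
      have e1 : j = (s + r) - n * q := by
        have : m = -(n : ℤ) := by linarith
        rw [this] at hd
        linarith
      rw [e1]
      exact (hdown n (s + r) (by omega) (by omega) (by rw [← e1]; exact h1)).symm
  have hper : ∀ i, b (i + q) = b i := by
    intro i
    show a (s + (i + q - s) % q) = a (s + (i - s) % q)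
    have : i + q - s = (i - s) + q := by ring
    rw [this, Int.add_emod_right]
  have hper2 : ∀ t : ℤ, sh t b = sh (s + (t - s) % q) b := by
    have h1 : ∀ (n : ℕ) (i : ℤ), b (i + n * q) = b i := by
      intro n
      induction n with
      | zero => intro i; simp
      | succ n ih =>
        intro i
        have : i + ((n + 1 : ℕ) : ℤ) * q = (i + n * q) + q := by push_cast; ring
        rw [this, hper, ih]
    intro t
    funext i
    simp only [sh]
    have hd := Int.emod_add_mul_ediv (t - s) q
    set r := (t - s) % q with hr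
    set m := (t - s) / q with hm
    rcases le_total 0 m with h3 | h3
    · obtain ⟨n, hn⟩ := Int.eq_ofNat_of_zero_le h3
      have e1 : i + t = (i + (s + r)) + n * q := by
        rw [hn] at hd
        linarith
      rw [e1, h1]
    · obtain ⟨n, hn⟩ := Int.eq_ofNat_of_zero_le (neg_nonneg.2 h3)
      have e1 : i + (s + r) = (i + t) + n * q := by
        have : m = -(n : ℤ) := by linarith
        rw [this] at hd
        linarith
      rw [e1, h1]
  refine ⟨b, q, by omega, hper, ?_, ?_⟩
  · -- not constant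
    by_contra hcon
    push Not at hcon
    refine hs1 ⟨by omega, (s, K), ⟨le_refl _, hsK, by show s + K ≤ N; omega, ?_⟩, by simp⟩
    right; right
    intro i hi1 hi2
    show a (i + s) = a (0 + s)
    have h1 := hagree (i + s) (by omega) (by omega)
    have h2 := hagree (0 + s) (by omega) (by omega)
    rw [← h1, ← h2]
    exact hcon _ _
  · intro t0 hcl
    rw [hper2] at hcl
    have hm0 := Int.emod_nonneg (t0 - s) hq0.ne'
    have hm1 := Int.emod_lt_of_pos (t0 - s) hq0
    obtain ⟨t, ht⟩ : ∃ t : ℕ, (t : ℤ) = s + (t0 - s) % q := ⟨(s + (t0 - s) % q).toNat, by omega⟩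
    rw [← ht] at hcl
    have hst : s ≤ t := by omega
    have hte : t < e := by omega
    set r : ℕ := min (t - s) (e - t) + K with hr
    have hr1 : r ≤ t - s + K := by omega
    have hr2 : r ≤ e - t + K := by omega
    have hδ : (0 : ℝ) < (1 / 2) ^ r := by positivity
    obtain ⟨z, hz, hzd⟩ := Metric.mem_closure_iff.1 hcl _ hδ
    rw [Prod.dist_eq, max_lt_iff, Real.dist_eq, Real.dist_eq] at hzd
    have hx : |fx (sh t a) - fx (sh t b)| ≤ (1 / 2) ^ r := by
      refine fx_close r _ _ fun k hk => ?_
      simp only [sh]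
      exact (hagree _ (by omega) (by omega)).symm
    have hy : |fy (sh t a) - fy (sh t b)| ≤ (1 / 2) ^ r := by
      refine fy_close r _ _ fun k hk => ?_
      simp only [sh]
      exact (hagree _ (by omega) (by omega)).symm
    have hnr : Nr H (2 * (1 / 2) ^ r) (pt (sh t a)) := by
      refine ⟨z, hz, ?_, ?_⟩
      · have h1 : |z.1 - fx (sh t a)| ≤ |z.1 - fx (sh t b)| + |fx (sh t b) - fx (sh t a)| :=
          abs_sub_le _ _ _
        have h2 := hzd.1
        simp only [pt] at h2 ⊢
        rw [abs_sub_comm] at h2 hx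
        linarith
      · have h1 : |z.2 - fy (sh t a)| ≤ |z.2 - fy (sh t b)| + |fy (sh t b) - fy (sh t a)| :=
          abs_sub_le _ _ _
        have h2 := hzd.2
        simp only [pt] at h2 ⊢
        rw [abs_sub_comm] at h2 hy
        linarith
    -- the event spoils `s` or `e`
    have hP : ¬ PE H (sh t a) r := by
      intro hPE
      have hE : ((t, r) : ℕ × ℕ) ∈ Ev H a N K :=
        ⟨by show K ≤ r; omega, by show r ≤ t; omega, by show t + r ≤ N; omega, hPE⟩
      rcases le_total (t - s) (e - t) with h1 | h1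
      · refine hs1 ⟨by omega, _, hE, ?_⟩
        have h2 : (t : ℝ) - s ≤ r := by
          have : (t : ℤ) - s ≤ r := by omega
          exact_mod_cast this
        have h3 : (s : ℝ) ≤ t := by exact_mod_cast hst
        simp only
        rw [abs_sub_comm, abs_of_nonneg (by linarith)]
        exact h2
      · refine he1 ⟨by omega, _, hE, ?_⟩
        have h2 : (e : ℝ) - t ≤ r := by
          have : (e : ℤ) - t ≤ r := by omega
          exact_mod_cast this
        have h3 : (t : ℝ) ≤ e := by exact_mod_cast hte.le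
        simp only
        rw [abs_of_nonneg (by linarith)]
        exact h2
    have hP' : ¬ PE (sw H) (rev (sh t a)) r := by
      intro hPE
      have e1 : sh ((N - t : ℕ) : ℤ) a' = rev (sh t a) := by
        rw [ha', sh_rev, sh_sh]
        congr 2
        omega
      have hE : ((N - t, r) : ℕ × ℕ) ∈ Ev (sw H) a' N K := by
        refine ⟨by show K ≤ r; omega, by show r ≤ N - t; omega, by show N - t + r ≤ N; omega, ?_⟩
        show PE (sw H) (sh ((N - t : ℕ) : ℤ) a') r
        rw [e1]
        exact hPE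
      have htN : t ≤ N := by omega
      rcases le_total (t - s) (e - t) with h1 | h1
      · refine hs2 ⟨by omega, _, hE, ?_⟩
        have h2 : (t : ℝ) - s ≤ r := by
          have : (t : ℤ) - s ≤ r := by omega
          exact_mod_cast this
        have h3 : (s : ℝ) ≤ t := by exact_mod_cast hst
        simp only
        rw [Nat.cast_sub htN, Nat.cast_sub (by omega)]
        have e2 : (N : ℝ) - s - (N - t) = t - s := by ring
        rw [e2, abs_of_nonneg (by linarith)]
        exact h2
      · refine he2 ⟨by omega, _, hE, ?_⟩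
        have h2 : (e : ℝ) - t ≤ r := by
          have : (e : ℤ) - t ≤ r := by omega
          exact_mod_cast this
        have h3 : (t : ℝ) ≤ e := by exact_mod_cast hte.le
        simp only
        rw [Nat.cast_sub htN, Nat.cast_sub (by omega)]
        have e2 : (N : ℝ) - e - (N - t) = -(e - t) := by ring
        rw [e2, abs_neg, abs_of_nonneg (by linarith)]
        exact h2
    rcases sep4 hc ho (ha t) with ⟨c, h1, h2⟩ | ⟨c, h1, h2⟩ | ⟨c, h1, h2⟩ | ⟨c, h1, h2⟩
    · exact hP (Or.inl ⟨hnr, c, h1, h2⟩)
    · exact hP (Or.inr (Or.inl ⟨hnr, c, h1, h2⟩))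
    · exact hP' (PE_sw_right hnr h1 h2)
    · exact hP' (PE_sw_left hnr h1 h2)

end Pool.Agent.Q179.BK
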